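import Pool.Agent.Helper62.MU.St2

/-!
# Module ZO of project MU (MP_ae3a4d_gt): zonoids

`hZO : StSX → StZO`: the transform of the support function of a zonoid is the superposition of the transforms of segments (Fubini),
hence sublinear.
-/

set_option autoImplicit false

namespace Pool.Agent.Helper78.MU

open MeasureTheory Metric Set Polynomial
open scoped RealInnerProductSpace ContDiff
open Pool.Agent.Helper62.MU2 Pool.Agent.Helper62.Mink

/-- the integrand on the product of the two spheres -/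
noncomputable def GZ (m : ℕ) (a : ℝ) (x : E (m + 2))
    (p : sphere (0 : E (m + 2)) 1 × sphere (0 : E (m + 2)) 1) : ℝ :=
  |(inner ℝ (p.1 : E (m + 2)) (p.2 : E (m + 2)) : ℝ)| *
    (‖x‖ * (fx m a).eval (inner ℝ x (p.2 : E (m + 2)) / ‖x‖))

theorem GZ_cont (m : ℕ) (a : ℝ) (x : E (m + 2)) : Continuous (GZ m a x) := by
  unfold GZ
  have h1 : Continuous fun p : sphere (0 : E (m + 2)) 1 × sphere (0 : E (m + 2)) 1 =>
      (inner ℝ (p.1 : E (m + 2)) (p.2 : E (m + 2)) : ℝ) :=
    (continuous_subtype_val.comp continuous_fst).inner (continuous_subtype_val.comp continuous_snd)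
  have h2 : Continuous fun p : sphere (0 : E (m + 2)) 1 × sphere (0 : E (m + 2)) 1 =>
      (inner ℝ x (p.2 : E (m + 2)) : ℝ) / ‖x‖ :=
    (continuous_const.inner (continuous_subtype_val.comp continuous_snd)).div_const _
  exact h1.abs.mul (continuous_const.mul ((fx m a).continuous.comp h2))

theorem GZ_int (m : ℕ) (a : ℝ) (x : E (m + 2)) (ρ : Measure (sphere (0 : E (m + 2)) 1))
    [IsFiniteMeasure ρ] :
    Integrable (GZ m a x) (ρ.prod (volume : Measure (E (m + 2))).toSphere) :=
  (GZ_cont m a x).integrable_of_hasCompactSupport (HasCompactSupport.of_compactSpace _)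

theorem conv_eq_sup (m : ℕ) (a : ℝ) (x : E (m + 2)) (ρ : Measure (sphere (0 : E (m + 2)) 1))
    [IsFiniteMeasure ρ] :
    conv (fun w => ∫ u, |(inner ℝ (u : E (m + 2)) w : ℝ)| ∂ρ) (fun t => (fx m a).eval t) x =
      ∫ u, conv (fun w => |(inner ℝ (u : E (m + 2)) w : ℝ)|) (fun t => (fx m a).eval t) x ∂ρ := by
  have h := integral_integral_swap (μ := ρ) (ν := (volume : Measure (E (m + 2))).toSphere)
    (f := fun u w => GZ m a x (u, w)) (GZ_int m a x ρ)
  have h1 : ∀ w : sphere (0 : E (m + 2)) 1, ∫ u, GZ m a x (u, w) ∂ρ =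
      (∫ u, |(inner ℝ (u : E (m + 2)) (w : E (m + 2)) : ℝ)| ∂ρ) *
        (‖x‖ * (fx m a).eval (inner ℝ x (w : E (m + 2)) / ‖x‖)) := by
    intro w
    unfold GZ
    exact integral_mul_const (μ := ρ) (‖x‖ * (fx m a).eval (inner ℝ x (w : E (m + 2)) / ‖x‖))
      (fun u : sphere (0 : E (m + 2)) 1 => |(inner ℝ (u : E (m + 2)) (w : E (m + 2)) : ℝ)|)
  unfold conv
  rw [← integral_congr_ae (Filter.Eventually.of_forall h1), ← h]
  rfl

theorem conv_int (m : ℕ) (a : ℝ) (x : E (m + 2)) (ρ : Measure (sphere (0 : E (m + 2)) 1))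
    [IsFiniteMeasure ρ] :
    Integrable (fun u : sphere (0 : E (m + 2)) 1 =>
      conv (fun w => |(inner ℝ (u : E (m + 2)) w : ℝ)|) (fun t => (fx m a).eval t) x) ρ :=
  (GZ_int m a x ρ).integral_prod_left

/-- module ZO -/
theorem hZO (hSX : StSX) : StZO := by
  intro m a ρ hm hρ
  refine ⟨?_, ?_⟩
  · intro c hc u
    exact conv_smul _ _ hc u
  · intro x y
    rw [conv_eq_sup, conv_eq_sup, conv_eq_sup, ← integral_add (conv_int m a x ρ) (conv_int m a y ρ)]
    exact integral_mono (conv_int m a (x + y) ρ) ((conv_int m a x ρ).add (conv_int m a y ρ))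
      (fun u => (hSX m a (u : E (m + 2)) hm).add_le x y)

end Pool.Agent.Helper78.MU
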